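import Pool.Agent.Mg.Fe62289.G5202e2
import Pool.Agent.Mg.Fe62289.Gcfc865
import Pool.Agent.Mg.Fe62289.G7c39dc

open Bundle Pool.Agent.MP_e62289_ag
open scoped Manifold ContDiff

namespace Pool.Agent.Results.MP_e62289_ag.NotKH

theorem result (E : Type) [NormedAddCommGroup E] [NormedSpace ℂ E] [FiniteDimensional ℂ E]
    (M : Type) [TopologicalSpace M] [ChartedSpace E M] [IsManifold 𝓘(ℂ, E) ω M]
    (C : Family E M ![2, 2, 2, 2, 1, 1, 1, 1]) (hC : C.Versal)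
    (B : Type) [EMetricSpace B] [ChartedSpace E B] [IsManifold 𝓘(ℂ, E) ω B]
    [IsManifold 𝓘(ℝ, E) ∞ B] [SimplyConnectedSpace B] (p : B → M) (hp : IsCoveringMap p)
    (hs : Function.Surjective p) (hd : IsLocalDiffeomorph 𝓘(ℂ, E) 𝓘(ℂ, E) ω p)
    [RiemannianBundle fun x : B => TangentSpace 𝓘(ℝ, E) x]
    [IsContMDiffRiemannianBundle 𝓘(ℝ, E) ∞ E fun x : B => TangentSpace 𝓘(ℝ, E) x]
    [IsRiemannianManifold 𝓘(ℝ, E) B] :
    ¬ (CompleteSpace B ∧ IsKahler E B ∧ SecBounded E B ∧ DBounded E B) := by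
  rintro ⟨h0, h1, h2, h3⟩
  obtain ⟨C', hC'⟩ := hC.cover hp hs hd
  obtain ⟨k, ⟨d⟩⟩ := exists_kdata h1 h2 h3
  exact core k d C' hC'

end Pool.Agent.Results.MP_e62289_ag.NotKH
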