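import Pool.Agent.Mg.Fe62289a.G99571b
import Pool.Agent.Mg.Fe62289a.Gfb6445
import Pool.Agent.Mg.Fe62289a.G2ef167
import Pool.Agent.Mg.Fe62289a.G7db109

open Bundle Pool.Agent.MP_e62289_ag
open scoped Manifold ContDiff

namespace Pool.Agent.Results.MP_e62289_ag.UnmarkedNotKH

/-- The strata of signature `(a, a, b, b)`, `2 ≤ a ≤ b`, are not Kähler hyperbolic: the `B i` play
the role of the universal covers of the components of the stratum. -/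
theorem result (a b : ℕ) (ha : 2 ≤ a) (hab : a ≤ b)
    (E : Type) [NormedAddCommGroup E] [NormedSpace ℂ E] [FiniteDimensional ℂ E]
    (ι : Type) [Finite ι] (B : ι → Type) [∀ i, EMetricSpace (B i)] [∀ i, ChartedSpace E (B i)]
    [∀ i, IsManifold 𝓘(ℂ, E) ω (B i)] [∀ i, IsManifold 𝓘(ℝ, E) ∞ (B i)]
    [∀ i, SimplyConnectedSpace (B i)] (C : ∀ i, Family E (B i) ![a, a, b, b])
    (hC : ∀ (k : ℕ) (S : TopologicalSpace.Opens (Fin k → ℂ)), SimplyConnectedSpace S →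
      ∀ D : Family (Fin k → ℂ) S ![a, a, b, b], ∃ i, D.IsPullback (C i))
    [∀ i, RiemannianBundle fun x : B i => TangentSpace 𝓘(ℝ, E) x]
    [∀ i, IsContMDiffRiemannianBundle 𝓘(ℝ, E) ∞ E fun x : B i => TangentSpace 𝓘(ℝ, E) x]
    [∀ i, IsRiemannianManifold 𝓘(ℝ, E) (B i)] :
    ¬ ∀ i, CompleteSpace (B i) ∧ IsKahler E (B i) ∧ SecBounded E (B i) ∧ DBounded E (B i) := by
  intro h
  choose k d using fun i => @exists_kdata E _ _ _ (B i) _ _ _ _ _ _ (h i).1 (h i).2.1 (h i).2.2.1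
    (h i).2.2.2
  obtain ⟨Cst, h0, h1⟩ := Un.bd_of k (fun i => (d i).some) C hC
  exact Un.core2 Un.sPD (Un.sHy Un.sFl Un.sEn) (Un.sXi Un.sIn Un.sJ1 (Un.sJ2 Un.sJ1)) Un.sKd Un.sNu
    Un.sPo Un.sE0 Un.sE1 (Un.sLo Un.sIn Un.sJ1) ha hab h0 h1

end Pool.Agent.Results.MP_e62289_ag.UnmarkedNotKH
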